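import Pool.Agent.W164.MO.Defs

set_option autoImplicit false

open Finset
open Pool.Agent.W164.MO

namespace Pool.Agent.W933.MO

lemma blk_facts {k l j N : ℕ} (hl : l ≤ k) (hj : j ∈ idx k l) (hN : N ∈ blk l j) :
    2 ^ k ≤ N ∧ N < 2 ^ (k+1) ∧ Nat.log 2 N = k ∧ N / 2 ^ l = j := by
  unfold idx at hj; unfold blk at hN
  rw [Finset.mem_Ico] at hj hN
  obtain ⟨h1, h2⟩ := hj
  obtain ⟨h3, h4⟩ := hN
  have e1 : 2 ^ k = 2 ^ (k - l) * 2 ^ l := by rw [← pow_add]; congr 1; omega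
  have e2 : 2 ^ (k+1) = 2 ^ (k - l + 1) * 2 ^ l := by rw [← pow_add]; congr 1; omega
  have a1 : 2 ^ k ≤ N := by rw [e1]; exact le_trans (Nat.mul_le_mul_right _ h1) h3
  have a2 : N < 2 ^ (k+1) := by
    rw [e2]; exact lt_of_lt_of_le h4 (Nat.mul_le_mul_right _ h2)
  refine ⟨a1, a2, ?_, ?_⟩
  · exact Nat.log_eq_of_pow_le_of_lt_pow a1 a2
  · exact Nat.div_eq_of_lt_le h3 h4

lemma mem_blk_of_log {N k l : ℕ} (hl : l ≤ k) (hN : N ≠ 0) (hk : Nat.log 2 N = k) :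
    N / 2 ^ l ∈ idx k l ∧ N ∈ blk l (N / 2 ^ l) := by
  have h1 : 2 ^ k ≤ N := by rw [← hk]; exact Nat.pow_log_le_self 2 hN
  have h2 : N < 2 ^ (k+1) := by rw [← hk]; exact Nat.lt_pow_succ_log_self (by norm_num) N
  have hp : 0 < 2 ^ l := by positivity
  constructor
  · unfold idx
    rw [Finset.mem_Ico]
    constructor
    · rw [Nat.le_div_iff_mul_le hp, ← pow_add]
      have : k - l + l = k := by omega
      rw [this]; exact h1
    · rw [Nat.div_lt_iff_lt_mul hp, ← pow_add]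
      have : k - l + 1 + l = k + 1 := by omega
      rw [this]; exact h2
  · unfold blk
    rw [Finset.mem_Ico]
    constructor
    · exact Nat.div_mul_le_self N (2^l)
    · exact Nat.lt_mul_of_div_lt (Nat.lt_succ_self _) hp

lemma ll_le {ν : ℝ} (h0 : 0 < ν) (k₁ k : ℕ) : ll ν k₁ k ≤ k := by
  unfold ll
  split_ifs with h
  · omega
  · have : (1/2 - ν/1000) * (k:ℝ) ≤ k := by
      have := Nat.cast_nonneg (α := ℝ) k
      nlinarith
    exact Nat.floor_le_of_le this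

lemma ll_up {ν : ℝ} (h1 : ν ≤ 1) {k₁ k : ℕ} (h : k₁ ≤ k) :
    (ll ν k₁ k : ℝ) ≤ (1/2 - ν/1000) * (k:ℝ) := by
  unfold ll
  rw [if_neg (by omega)]
  apply Nat.floor_le
  have := Nat.cast_nonneg (α := ℝ) k
  apply mul_nonneg _ this
  linarith

lemma ll_low {ν : ℝ} {k₁ k : ℕ} (h : k₁ ≤ k) :
    (1/2 - ν/1000) * (k:ℝ) - 1 ≤ (ll ν k₁ k : ℝ) := by
  unfold ll
  rw [if_neg (by omega)]
  have := Nat.lt_floor_add_one ((1/2 - ν/1000) * (k:ℝ))
  linarith

lemma card_mult_le (a L r : ℕ) (hr : 0 < r) :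
    (((Ico a (a+L)).filter (fun N => r ∣ N)).card : ℝ) ≤ L / r + 1 := by
  rcases ((Ico a (a+L)).filter (fun N => r ∣ N)).eq_empty_or_nonempty with h | h
  · rw [h]; simp; positivity
  · set F := (Ico a (a+L)).filter (fun N => r ∣ N) with hF
    have mem : ∀ x ∈ F, (a ≤ x ∧ x < a + L) ∧ r ∣ x := by
      intro x hx
      rw [hF, Finset.mem_filter, Finset.mem_Ico] at hx
      exact hx
    obtain ⟨⟨m1, m2⟩, u, hu⟩ := mem _ (F.min'_mem h)
    obtain ⟨⟨m3, m4⟩, v, hv⟩ := mem _ (F.max'_mem h)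
    have hsub : F ⊆ (Icc u v).image (fun m => r * m) := by
      intro N hN
      obtain ⟨⟨n1, n2⟩, w, hw⟩ := mem _ hN
      rw [Finset.mem_image]
      refine ⟨w, ?_, hw.symm⟩
      rw [Finset.mem_Icc]
      constructor
      · have : r * u ≤ r * w := by rw [← hu, ← hw]; exact F.min'_le N hN
        exact Nat.le_of_mul_le_mul_left this hr
      · have : r * w ≤ r * v := by rw [← hv, ← hw]; exact F.le_max' N hN
        exact Nat.le_of_mul_le_mul_left this hr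
    have hc : F.card ≤ v + 1 - u := by
      refine le_trans (Finset.card_le_card hsub) (le_trans Finset.card_image_le ?_)
      rw [Nat.card_Icc]
    have huv : u ≤ v := by
      have : r * u ≤ r * v := by rw [← hu, ← hv]; exact F.min'_le _ (F.max'_mem h)
      exact Nat.le_of_mul_le_mul_left this hr
    have hlt : r * v < r * u + L := by
      rw [← hu, ← hv]; omega
    have h1 : (F.card : ℝ) ≤ (v:ℝ) - u + 1 := by
      have : F.card + u ≤ v + 1 := by omega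
      have : ((F.card + u : ℕ) : ℝ) ≤ ((v + 1 : ℕ) : ℝ) := by exact_mod_cast this
      push_cast at this; linarith
    have h2 : (v:ℝ) - u ≤ L / r := by
      rw [le_div_iff₀ (by exact_mod_cast hr)]
      have : ((r * v : ℕ) : ℝ) < ((r * u + L : ℕ) : ℝ) := by exact_mod_cast hlt
      push_cast at this; nlinarith
    linarith

/-- polynomial times exponential decay -/
lemma ev_decay (γ ε : ℝ) (hγ : 0 < γ) (hε : 0 < ε) :
    ∃ K : ℕ, ∀ k : ℕ, K ≤ k → (k:ℝ) * (k + 1) * (2:ℝ) ^ (-(γ * (k:ℝ))) ≤ ε := by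
  set r : ℝ := (2:ℝ) ^ (-γ) with hr
  have hr0 : 0 < r := by positivity
  have hr1 : r < 1 := by
    rw [hr]; apply Real.rpow_lt_one_of_one_lt_of_neg <;> linarith
  have t1 := tendsto_pow_const_mul_const_pow_of_lt_one 1 hr0.le hr1
  have t2 := tendsto_pow_const_mul_const_pow_of_lt_one 2 hr0.le hr1
  have t3 := t2.add t1
  rw [add_zero] at t3
  have := (t3.eventually (gt_mem_nhds hε))
  rw [Filter.eventually_atTop] at this
  obtain ⟨K, hK⟩ := this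
  refine ⟨K, fun k hk => ?_⟩
  have h := hK k hk
  have e : (2:ℝ) ^ (-(γ * (k:ℝ))) = r ^ k := by
    rw [hr, ← Real.rpow_natCast, ← Real.rpow_mul (by norm_num)]
    congr 1; ring
  rw [e]
  have e2 : (k:ℝ) * (k+1) * r ^ k = (k:ℝ)^2 * r^k + (k:ℝ)^1 * r ^ k := by ring
  rw [e2]
  exact h.le

def QQ (c ν : ℝ) (k₁ : ℕ) : Set ℕ := {p | ∃ N, Src c ν k₁ N p}

def BP (ν : ℝ) (k₁ : ℕ) : Set ℕ := {p | k₁ ≤ Nat.log 2 p ∧
  Bad (Nat.log 2 p) (ll ν k₁ (Nat.log 2 p)) (p / 2 ^ ll ν k₁ (Nat.log 2 p))}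

def OD (c ν : ℝ) (k₀ k₁ : ℕ) : Set ℕ :=
  {p | p.Prime ∧ 2 ^ k₀ ≤ p ∧ p ∉ QQ c ν k₁ ∧ p ∉ BP ν k₁}

def SpP (c ν : ℝ) (k₀ k₁ N p : ℕ) : Prop := Src c ν k₁ N p ∧
  (∀ r, r.Prime → r ∣ N / p → r ∈ OD c ν k₀ k₁) ∧ ∀ N', N' ≠ N → ¬ Src c ν k₁ N' p

def SP (c ν : ℝ) (k₀ k₁ : ℕ) : Set ℕ := {N | ∃ p, SpP c ν k₀ k₁ N p}

open Classical in
noncomputable def qq (c ν : ℝ) (k₀ k₁ : ℕ) (N : ℕ) : ℕ :=
  if h : ∃ p, SpP c ν k₀ k₁ N p then h.choose else 0

lemma qq_spec {c ν : ℝ} {k₀ k₁ N : ℕ} (h : N ∈ SP c ν k₀ k₁) :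
    SpP c ν k₀ k₁ N (qq c ν k₀ k₁ N) := by
  unfold qq
  have h' : ∃ p, SpP c ν k₀ k₁ N p := h
  rw [dif_pos h']
  exact h'.choose_spec

/-- `N` is larger than the large prime factor of a source -/
lemma src_lt {c ν : ℝ} {k₁ N p : ℕ} (hc : c ≤ 1/10) (hk : 1 ≤ k₁) (h : Src c ν k₁ N p) :
    p < N := by
  obtain ⟨h0, h1, _, _, _, _, h6, _⟩ := h
  have a : (2:ℝ) ^ ((1/2 + c) * (Nat.log 2 N : ℝ)) < (2:ℝ) ^ ((Nat.log 2 N : ℝ)) := by
    apply Real.rpow_lt_rpow_of_exponent_lt (by norm_num)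
    have : (1:ℝ) ≤ (Nat.log 2 N : ℝ) := by exact_mod_cast le_trans hk h1
    nlinarith
  rw [Real.rpow_natCast] at a
  have b : ((2 ^ Nat.log 2 N : ℕ) : ℝ) ≤ N := by exact_mod_cast Nat.pow_log_le_self 2 h0
  push_cast at b
  have : (p:ℝ) < N := by linarith
  exact_mod_cast this

lemma noBad (hBB : S_BB) (hR : RiemannHypothesis) : ∃ K : ℕ, ∀ k : ℕ, K ≤ k →
    (∀ j ∈ idx k (2 * k / 3), ¬ Bad k (2 * k / 3) j) ∧ (∀ j ∈ idx k k, ¬ Bad k k j) := by
  obtain ⟨K, hK⟩ := hBB hR (1/6) (by norm_num)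
  refine ⟨max K 10, fun k hk => ?_⟩
  have hk1 : K ≤ k := le_trans (le_max_left _ _) hk
  have hk2 : 10 ≤ k := le_trans (le_max_right _ _) hk
  have hk2' : (10:ℝ) ≤ k := by exact_mod_cast hk2
  have key : ∀ l : ℕ, l ≤ k → (1 + (1/6 : ℝ)) * k - 2 * l < 0 →
      ∀ j ∈ idx k l, ¬ Bad k l j := by
    intro l hl hneg j hj hb
    have h := hK k l hk1 hl
    have h2 : (2:ℝ) ^ ((1 + (1/6 : ℝ)) * k - 2 * l) < 1 :=
      Real.rpow_lt_one_of_one_lt_of_neg (by norm_num) hneg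
    have h3 : (((idx k l).filter (fun j => Bad k l j)).card : ℝ) < 1 := lt_of_le_of_lt h h2
    have h4 : ((idx k l).filter (fun j => Bad k l j)).card < 1 := by exact_mod_cast h3
    have h5 : 0 < ((idx k l).filter (fun j => Bad k l j)).card := by
      apply Finset.card_pos.mpr
      exact ⟨j, Finset.mem_filter.mpr ⟨hj, hb⟩⟩
    omega
  constructor
  · apply key _ (by omega)
    have : 2 * k ≤ 3 * (2 * k / 3) + 2 := by omega
    have : ((2 * k : ℕ) : ℝ) ≤ ((3 * (2 * k / 3) + 2 : ℕ) : ℝ) := by exact_mod_cast this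
    push_cast at this
    have e : ((2 * k / 3 : ℕ) : ℝ) = ((2 * k / 3 : ℕ) : ℝ) := rfl
    nlinarith
  · apply key _ le_rfl
    nlinarith


/-- the SY2 set -/
def Z2 (c ν : ℝ) (k₁ k n : ℕ) : Prop := ∃ N p : ℕ, Src c ν k₁ N p ∧ p ∣ n ∧
      2 ^ ll ν k₁ k ≤ p ∧ ¬ (N ∣ n ∧ (n : ℝ) < (2 : ℝ) ^ (ν / 8 * (k : ℝ)) * N)

open Classical in
/-- numbers in the block whose cofactor has a prime factor outside `OD` -/
noncomputable def B1 (c ν : ℝ) (k₀ k₁ k j : ℕ) : Finset ℕ := (blk (ll ν k₁ k) j).filter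
  (fun N => ∃ p, Src c ν k₁ N p ∧ ∃ r, r.Prime ∧ r ∣ N / p ∧ r ∉ OD c ν k₀ k₁)

open Classical in
lemma B1_card {c ν : ℝ} (hc : 0 < c) (hc' : c ≤ 1/10) (hν : 0 < ν) (hν' : ν ≤ c/2) {k₀ k₁ k j : ℕ}
    (h01 : (k₀ : ℝ) ≤ ν * k₁) (hk : k₁ ≤ k) (hj : j ∈ idx k (ll ν k₁ k))
    (h1 : ∀ i : ℕ, (((Ico (2 ^ i) (2 ^ (i + 1))).filter (fun p => ∃ N, Src c ν k₁ N p)).card : ℝ) ≤
      (2 : ℝ) ^ ((1 - c / 4) * (i : ℝ)) ∧
    (((Ico (2 ^ i) (2 ^ (i + 1))).filter (fun p => k₁ ≤ i ∧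
      Bad i (ll ν k₁ i) (p / 2 ^ ll ν k₁ i))).card : ℝ) ≤ (2 : ℝ) ^ ((1 - c / 4) * (i : ℝ))) :
    ((B1 c ν k₀ k₁ k j).card : ℝ) ≤
      (2:ℝ) ^ (ll ν k₁ k) * (12 * ((k:ℝ) + 1) * (2:ℝ) ^ (-(c * ν / 4 * (k:ℝ)))) := by
  set l := ll ν k₁ k with hl
  have hlk : l ≤ k := ll_le hν k₁ k
  set T : ℕ → Finset ℕ := fun i => (Ico (2 ^ i) (2 ^ (i + 1))).filter
    (fun r => r ∈ QQ c ν k₁ ∨ r ∈ BP ν k₁) with hT
  set J : Finset ℕ := (range (k+1)).filter (fun i => (2:ℝ) ^ (ν * (k:ℝ)) ≤ (2:ℝ) ^ ((i:ℝ) + 1) ∧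
    (2:ℝ) ^ (i:ℝ) ≤ (2:ℝ) ^ ((1/2 - c/2) * (k:ℝ) + 1)) with hJ
  have hsub : B1 c ν k₀ k₁ k j ⊆ J.biUnion (fun i => (T i).biUnion
      (fun r => (blk l j).filter (fun N => r ∣ N))) := by
    intro N hN
    unfold B1 at hN
    rw [← hl, Finset.mem_filter] at hN
    obtain ⟨hNb, p, hsrc, r, hr, hrd, hrO⟩ := hN
    obtain ⟨f1, f2, f3, f4⟩ := blk_facts hlk hj hNb
    obtain ⟨s1, s2, s3, s4, s5, s6, s7, s8⟩ := hsrc
    have hrz : (2:ℝ) ^ (ν * (Nat.log 2 N : ℝ)) ≤ (r:ℝ) := s8 r hr hrd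
    rw [f3] at hrz s6
    have hrN : r ∣ N := dvd_trans hrd (Nat.div_dvd_of_dvd s5)
    have hr0 : r ≠ 0 := hr.ne_zero
    -- bounds for r
    have hNp : N = N / p * p := (Nat.div_mul_cancel s5).symm
    have hNpos : 0 < N := Nat.pos_of_ne_zero s1
    have hquot : 0 < N / p := Nat.div_pos (Nat.le_of_dvd hNpos s5) s4.pos
    have hrle : r ≤ N / p := Nat.le_of_dvd hquot hrd
    have hrle' : (r:ℝ) ≤ (2:ℝ) ^ ((1/2 - c/2) * (k:ℝ) + 1) := by
      have a1 : (r:ℝ) * p ≤ N := by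
        have : r * p ≤ N := by
          calc r * p ≤ N / p * p := Nat.mul_le_mul_right _ hrle
            _ = N := hNp.symm
        exact_mod_cast this
      have a2 : (N:ℝ) < (2:ℝ) ^ ((k:ℝ) + 1) := by
        have : (N:ℝ) < ((2 ^ (k+1) : ℕ) : ℝ) := by exact_mod_cast f2
        rw [show (k:ℝ) + 1 = ((k+1 : ℕ) : ℝ) by push_cast; ring, Real.rpow_natCast]
        push_cast at this; exact this
      have a3 : (r:ℝ) * (2:ℝ) ^ ((1/2 + c/2) * (k:ℝ)) ≤ (2:ℝ) ^ ((k:ℝ) + 1) := by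
        have h0 : (0:ℝ) ≤ r := Nat.cast_nonneg r
        have := mul_le_mul_of_nonneg_left s6.le h0
        linarith
      have a4 : (2:ℝ) ^ ((k:ℝ) + 1) = (2:ℝ) ^ ((1/2 - c/2) * (k:ℝ) + 1) *
          (2:ℝ) ^ ((1/2 + c/2) * (k:ℝ)) := by
        rw [← Real.rpow_add (by norm_num)]; congr 1; ring
      rw [a4] at a3
      exact le_of_mul_le_mul_right a3 (by positivity)
    have b1 : 2 ^ Nat.log 2 r ≤ r := Nat.pow_log_le_self 2 hr0
    have b2 : r < 2 ^ (Nat.log 2 r + 1) := Nat.lt_pow_succ_log_self (by norm_num) r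
    have b1' : (2:ℝ) ^ ((Nat.log 2 r : ℕ) : ℝ) ≤ r := by
      rw [Real.rpow_natCast]; exact_mod_cast b1
    have b2' : (r:ℝ) ≤ (2:ℝ) ^ (((Nat.log 2 r : ℕ) : ℝ) + 1) := by
      rw [show ((Nat.log 2 r : ℕ) : ℝ) + 1 = ((Nat.log 2 r + 1 : ℕ) : ℝ) by push_cast; ring,
        Real.rpow_natCast]
      exact_mod_cast b2.le
    have hk0 : 2 ^ k₀ ≤ r := by
      have : (2:ℝ) ^ (k₀:ℝ) ≤ (2:ℝ) ^ (ν * (k:ℝ)) := by
        apply Real.rpow_le_rpow_of_exponent_le (by norm_num)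
        have : (k₁:ℝ) ≤ k := by exact_mod_cast hk
        nlinarith
      have : (2:ℝ) ^ (k₀:ℝ) ≤ r := le_trans this hrz
      rw [Real.rpow_natCast] at this
      exact_mod_cast this
    have hrT : r ∈ QQ c ν k₁ ∨ r ∈ BP ν k₁ := by
      by_contra hcon
      push Not at hcon
      exact hrO ⟨hr, hk0, hcon.1, hcon.2⟩
    rw [Finset.mem_biUnion]
    refine ⟨Nat.log 2 r, ?_, ?_⟩
    · rw [hJ, Finset.mem_filter, Finset.mem_range]
      refine ⟨?_, le_trans hrz b2', le_trans b1' hrle'⟩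
      have : Nat.log 2 r ≤ Nat.log 2 N := Nat.log_mono_right (Nat.le_of_dvd hNpos hrN)
      omega
    · rw [Finset.mem_biUnion]
      refine ⟨r, ?_, ?_⟩
      · rw [hT]; simp only [Finset.mem_filter, Finset.mem_Ico]
        exact ⟨⟨b1, b2⟩, hrT⟩
      · rw [Finset.mem_filter]; exact ⟨hNb, hrN⟩
  have hTc : ∀ i, ((T i).card : ℝ) ≤ 2 * (2 : ℝ) ^ ((1 - c / 4) * (i : ℝ)) := by
    intro i
    have hs : T i ⊆ ((Ico (2 ^ i) (2 ^ (i + 1))).filter (fun p => ∃ N, Src c ν k₁ N p)) ∪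
        ((Ico (2 ^ i) (2 ^ (i + 1))).filter (fun p => k₁ ≤ i ∧
          Bad i (ll ν k₁ i) (p / 2 ^ ll ν k₁ i))) := by
      intro r hr
      rw [hT] at hr
      simp only [Finset.mem_filter, Finset.mem_Ico] at hr
      obtain ⟨⟨r1, r2⟩, r3⟩ := hr
      have hlog : Nat.log 2 r = i := Nat.log_eq_of_pow_le_of_lt_pow r1 r2
      rw [Finset.mem_union]
      rcases r3 with r3 | r3
      · left; rw [Finset.mem_filter, Finset.mem_Ico]; exact ⟨⟨r1, r2⟩, r3⟩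
      · right
        rw [Finset.mem_filter, Finset.mem_Ico]
        refine ⟨⟨r1, r2⟩, ?_⟩
        have r3' : k₁ ≤ Nat.log 2 r ∧
          Bad (Nat.log 2 r) (ll ν k₁ (Nat.log 2 r)) (r / 2 ^ ll ν k₁ (Nat.log 2 r)) := r3
        rw [hlog] at r3'
        exact r3'
    have h2 := Finset.card_le_card hs
    have h3 := le_trans h2 (Finset.card_union_le _ _)
    have h4 : ((T i).card : ℝ) ≤ (((Ico (2 ^ i) (2 ^ (i + 1))).filter
        (fun p => ∃ N, Src c ν k₁ N p)).card : ℝ) + (((Ico (2 ^ i) (2 ^ (i + 1))).filter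
        (fun p => k₁ ≤ i ∧ Bad i (ll ν k₁ i) (p / 2 ^ ll ν k₁ i))).card : ℝ) := by
      exact_mod_cast h3
    have := h1 i
    linarith [this.1, this.2]
  have hblk : blk l j = Ico (j * 2 ^ l) (j * 2 ^ l + 2 ^ l) := by
    unfold blk; congr 1; ring
  have hinner : ∀ i ∈ J, ((((T i).biUnion (fun r => (blk l j).filter (fun N => r ∣ N)))).card : ℝ) ≤
      2 * (2:ℝ) ^ l * (2:ℝ) ^ (-(c/4 * (ν * (k:ℝ) - 1))) +
        2 * (2:ℝ) ^ ((1/2 - c/2) * (k:ℝ) + 1) := by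
    intro i hi
    rw [hJ, Finset.mem_filter] at hi
    obtain ⟨_, hi1, hi2⟩ := hi
    have e1 : ν * (k:ℝ) ≤ (i:ℝ) + 1 := by
      by_contra hcon
      push Not at hcon
      have := Real.rpow_lt_rpow_of_exponent_lt (x := 2) (by norm_num) hcon
      linarith
    have e2 : ((((T i).biUnion (fun r => (blk l j).filter (fun N => r ∣ N)))).card : ℝ) ≤
        ∑ r ∈ T i, (((2:ℝ) ^ l) / (2:ℝ) ^ i + 1) := by
      have := Finset.card_biUnion_le (s := T i) (t := fun r => (blk l j).filter (fun N => r ∣ N))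
      have h5 : ((((T i).biUnion (fun r => (blk l j).filter (fun N => r ∣ N)))).card : ℝ) ≤
        ∑ r ∈ T i, (((blk l j).filter (fun N => r ∣ N)).card : ℝ) := by exact_mod_cast this
      refine le_trans h5 (Finset.sum_le_sum fun r hr => ?_)
      rw [hT] at hr
      simp only [Finset.mem_filter, Finset.mem_Ico] at hr
      obtain ⟨⟨r1, r2⟩, r3⟩ := hr
      have hrpos : 0 < r := lt_of_lt_of_le (by positivity) r1
      rw [hblk]
      refine le_trans (card_mult_le _ _ r hrpos) ?_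
      have : ((2 ^ i : ℕ) : ℝ) ≤ r := by exact_mod_cast r1
      push_cast at this
      push_cast
      have h6 : (2:ℝ) ^ l / r ≤ (2:ℝ) ^ l / (2:ℝ) ^ i :=
        div_le_div_of_nonneg_left (by positivity) (by positivity) this
      linarith
    rw [Finset.sum_const, nsmul_eq_mul] at e2
    refine le_trans e2 ?_
    have hpos : (0:ℝ) ≤ (2:ℝ) ^ l / (2:ℝ) ^ i + 1 := by positivity
    refine le_trans (mul_le_mul_of_nonneg_right (hTc i) hpos) ?_
    have e3 : 2 * (2 : ℝ) ^ ((1 - c / 4) * (i : ℝ)) * ((2:ℝ) ^ l / (2:ℝ) ^ i + 1) =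
        2 * (2:ℝ) ^ l * ((2 : ℝ) ^ ((1 - c / 4) * (i : ℝ)) / (2:ℝ) ^ i) +
        2 * (2 : ℝ) ^ ((1 - c / 4) * (i : ℝ)) := by ring
    rw [e3]
    have e4 : (2 : ℝ) ^ ((1 - c / 4) * (i : ℝ)) / (2:ℝ) ^ i = (2:ℝ) ^ (-(c/4 * (i:ℝ))) := by
      rw [← Real.rpow_natCast 2 i, ← Real.rpow_sub (by norm_num)]; congr 1; ring
    rw [e4]
    apply add_le_add
    · apply mul_le_mul_of_nonneg_left _ (by positivity)
      apply Real.rpow_le_rpow_of_exponent_le (by norm_num)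
      have : c/4 * (ν * (k:ℝ) - 1) ≤ c/4 * (i:ℝ) := by
        apply mul_le_mul_of_nonneg_left _ (by positivity); linarith
      linarith
    · apply mul_le_mul_of_nonneg_left _ (by norm_num)
      refine le_trans ?_ hi2
      apply Real.rpow_le_rpow_of_exponent_le (by norm_num)
      have : (0:ℝ) ≤ i := Nat.cast_nonneg i
      nlinarith
  have htot : ((B1 c ν k₀ k₁ k j).card : ℝ) ≤ ((k:ℝ) + 1) *
      (2 * (2:ℝ) ^ l * (2:ℝ) ^ (-(c/4 * (ν * (k:ℝ) - 1))) +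
        2 * (2:ℝ) ^ ((1/2 - c/2) * (k:ℝ) + 1)) := by
    have g1 := le_trans (Finset.card_le_card hsub) Finset.card_biUnion_le
    have g2 : ((B1 c ν k₀ k₁ k j).card : ℝ) ≤ ∑ i ∈ J,
      ((((T i).biUnion (fun r => (blk l j).filter (fun N => r ∣ N)))).card : ℝ) := by
      exact_mod_cast g1
    refine le_trans g2 (le_trans (Finset.sum_le_sum hinner) ?_)
    rw [Finset.sum_const, nsmul_eq_mul]
    apply mul_le_mul_of_nonneg_right _ (by positivity)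
    have : J.card ≤ k + 1 := by
      refine le_trans (Finset.card_filter_le _ _) ?_
      rw [Finset.card_range]
    exact_mod_cast this
  refine le_trans htot ?_
  have hk0 : (0:ℝ) ≤ k := Nat.cast_nonneg k
  have hll := ll_low (ν := ν) hk
  rw [← hl] at hll
  -- first term
  have t1 : (2:ℝ) ^ (-(c/4 * (ν * (k:ℝ) - 1))) ≤ 2 * (2:ℝ) ^ (-(c * ν / 4 * (k:ℝ))) := by
    have : (2:ℝ) * (2:ℝ) ^ (-(c * ν / 4 * (k:ℝ))) = (2:ℝ) ^ (1 + -(c * ν / 4 * (k:ℝ))) := by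
      rw [Real.rpow_add (by norm_num), Real.rpow_one]
    rw [this]
    apply Real.rpow_le_rpow_of_exponent_le (by norm_num)
    nlinarith
  have t2 : (2:ℝ) ^ ((1/2 - c/2) * (k:ℝ) + 1) ≤
      (2:ℝ) ^ l * (4 * (2:ℝ) ^ (-(c * ν / 4 * (k:ℝ)))) := by
    have e5 : (2:ℝ) ^ l * (4 * (2:ℝ) ^ (-(c * ν / 4 * (k:ℝ)))) =
        (2:ℝ) ^ ((l:ℝ) + (2 + -(c * ν / 4 * (k:ℝ)))) := by
      rw [Real.rpow_add (by norm_num), Real.rpow_add (by norm_num), Real.rpow_natCast]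
      norm_num
    rw [e5]
    apply Real.rpow_le_rpow_of_exponent_le (by norm_num)
    have h7 : c * ν / 4 * (k:ℝ) ≤ (c/2 - ν/1000) * (k:ℝ) := by
      apply mul_le_mul_of_nonneg_right _ hk0
      nlinarith
    nlinarith
  calc ((k:ℝ) + 1) * (2 * (2:ℝ) ^ l * (2:ℝ) ^ (-(c/4 * (ν * (k:ℝ) - 1))) +
        2 * (2:ℝ) ^ ((1/2 - c/2) * (k:ℝ) + 1))
      ≤ ((k:ℝ) + 1) * (2 * (2:ℝ) ^ l * (2 * (2:ℝ) ^ (-(c * ν / 4 * (k:ℝ)))) +
        2 * ((2:ℝ) ^ l * (4 * (2:ℝ) ^ (-(c * ν / 4 * (k:ℝ)))))) := by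
        apply mul_le_mul_of_nonneg_left _ (by positivity)
        apply add_le_add
        · exact mul_le_mul_of_nonneg_left t1 (by positivity)
        · exact mul_le_mul_of_nonneg_left t2 (by norm_num)
    _ = (2:ℝ) ^ l * (12 * ((k:ℝ) + 1) * (2:ℝ) ^ (-(c * ν / 4 * (k:ℝ)))) := by ring


open Classical in
lemma bad_card {c ν c₁' : ℝ} (hc : 0 < c) (hc' : c ≤ 1/10) (hν : 0 < ν) (hν' : ν ≤ c/2)
    (hc1 : 0 < c₁') {k₀ k₁ k j : ℕ}
    (h01 : (k₀ : ℝ) ≤ ν * k₁) (hk : k₁ ≤ k) (hk1 : 1 ≤ k₁) (hj : j ∈ idx k (ll ν k₁ k))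
    (h1 : ∀ i : ℕ, (((Ico (2 ^ i) (2 ^ (i + 1))).filter (fun p => ∃ N, Src c ν k₁ N p)).card : ℝ) ≤
      (2 : ℝ) ^ ((1 - c / 4) * (i : ℝ)) ∧
    (((Ico (2 ^ i) (2 ^ (i + 1))).filter (fun p => k₁ ≤ i ∧
      Bad i (ll ν k₁ i) (p / 2 ^ ll ν k₁ i))).card : ℝ) ≤ (2 : ℝ) ^ ((1 - c / 4) * (i : ℝ)))
    (h2 : (((blk (ll ν k₁ k) j).filter (fun n => Z2 c ν k₁ k n)).card : ℝ) ≤
      2 ^ ll ν k₁ k * (2 : ℝ) ^ (-(ν / 32 * (k : ℝ))))
    (hbad : Bad k (ll ν k₁ k) j)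
    (hSN : c₁' * ((2 ^ ll ν k₁ k : ℕ) : ℝ) / k ≤
      (((Ico (j * 2 ^ ll ν k₁ k) (j * 2 ^ ll ν k₁ k + 2 ^ ll ν k₁ k)).filter
        (fun N => Cand c ν k N)).card : ℝ))
    (hdec : (k:ℝ) * (k + 1) * (2:ℝ) ^ (-(c * ν / 64 * (k:ℝ))) ≤ c₁' / 32) :
    c₁' / 4 * 2 ^ ll ν k₁ k / k ≤
      (((blk (ll ν k₁ k) j).filter (fun N => N ∈ SP c ν k₀ k₁)).card : ℝ) := by
  set l := ll ν k₁ k with hl
  have hlk : l ≤ k := ll_le hν k₁ k
  have hkpos : (0:ℝ) < k := by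
    have : 1 ≤ k := le_trans hk1 hk
    exact_mod_cast this
  have hblk : blk l j = Ico (j * 2 ^ l) (j * 2 ^ l + 2 ^ l) := by
    unfold blk; congr 1; ring
  rw [← hblk] at hSN
  have hν1 : ν ≤ 1 := by linarith
  have hsub : (blk l j).filter (fun N => Cand c ν k N) ⊆
      (blk l j).filter (fun N => N ∈ SP c ν k₀ k₁) ∪ (B1 c ν k₀ k₁ k j ∪
        (blk l j).filter (fun n => Z2 c ν k₁ k n)) := by
    intro N hN
    rw [Finset.mem_filter] at hN
    obtain ⟨hNb, q, n, hq, hNn, hlow, hup, hrough⟩ := hN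
    obtain ⟨f1, f2, f3, f4⟩ := blk_facts hlk hj hNb
    have hN0 : N ≠ 0 := by
      have : 0 < 2 ^ k := by positivity
      omega
    have hNq : N / q = n := by rw [hNn]; exact Nat.mul_div_cancel _ hq.pos
    have hqN : q ∣ N := by rw [hNn]; exact Dvd.intro_left n rfl
    have hsrc : Src c ν k₁ N q := by
      refine ⟨hN0, by omega, ?_, hq, hqN, ?_, ?_, ?_⟩
      · rw [f3, ← hl, f4]; exact hbad
      · rw [f3]; exact hlow
      · rw [f3]; exact hup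
      · rw [f3, hNq]; exact hrough
    rw [Finset.mem_union, Finset.mem_union]
    by_cases hA : ∃ r, r.Prime ∧ r ∣ N / q ∧ r ∉ OD c ν k₀ k₁
    · right; left
      unfold B1
      rw [Finset.mem_filter, ← hl]
      exact ⟨hNb, q, hsrc, hA⟩
    · by_cases hB : ∃ N', N' ≠ N ∧ Src c ν k₁ N' q
      · right; right
        rw [Finset.mem_filter]
        refine ⟨hNb, ?_⟩
        obtain ⟨N', hne, hs'⟩ := hB
        refine ⟨N', q, hs', hqN, ?_, ?_⟩
        · -- 2 ^ l ≤ q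
          have u1 := ll_up hν1 hk
          rw [← hl] at u1
          have u2 : (2:ℝ) ^ (l:ℝ) ≤ (2:ℝ) ^ ((1/2 + c/2) * (k:ℝ)) := by
            apply Real.rpow_le_rpow_of_exponent_le (by norm_num)
            nlinarith
          rw [Real.rpow_natCast] at u2
          have u3 : (2:ℝ) ^ l < q := lt_of_le_of_lt u2 hlow
          have : ((2 ^ l : ℕ) : ℝ) ≤ q := by push_cast; exact u3.le
          rw [← hl]
          exact_mod_cast this
        · rintro ⟨hd, hlt⟩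
          obtain ⟨m, hm⟩ := hd
          have hN'0 : 0 < N' := Nat.pos_of_ne_zero hs'.1
          have hqN' : q ∣ N' := hs'.2.2.2.2.1
          have hm0 : m ≠ 0 := by rintro rfl; exact hN0 (by rw [hm]; simp)
          have hm1 : m ≠ 1 := by rintro rfl; exact hne (by rw [hm]; simp)
          obtain ⟨r, hr, hrm⟩ := Nat.exists_prime_and_dvd hm1
          have hmn : m ∣ N / q := by
            rw [hm, Nat.mul_comm, Nat.mul_div_assoc _ hqN']
            exact Dvd.intro _ rfl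
          have hrr : (2:ℝ) ^ (ν * (k:ℝ)) ≤ r := hrough r hr (by rw [← hNq]; exact dvd_trans hrm hmn)
          have hrm' : (r:ℝ) ≤ m := by
            exact_mod_cast Nat.le_of_dvd (Nat.pos_of_ne_zero hm0) hrm
          have v1 : (2:ℝ) ^ (ν / 8 * (k:ℝ)) ≤ (2:ℝ) ^ (ν * (k:ℝ)) := by
            apply Real.rpow_le_rpow_of_exponent_le (by norm_num)
            nlinarith
          have v2 : (N:ℝ) = N' * m := by rw [hm]; push_cast; ring
          have v3 : (0:ℝ) < N' := by exact_mod_cast hN'0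
          have v4 : (2:ℝ) ^ (ν / 8 * (k:ℝ)) ≤ m := by linarith
          have v5 : (2:ℝ) ^ (ν / 8 * (k:ℝ)) * N' ≤ m * N' :=
            mul_le_mul_of_nonneg_right v4 v3.le
          rw [v2] at hlt
          linarith
      · left
        rw [Finset.mem_filter]
        refine ⟨hNb, q, hsrc, ?_, ?_⟩
        · intro r hr hrd
          by_contra hcon
          exact hA ⟨r, hr, hrd, hcon⟩
        · intro N' hne hs
          exact hB ⟨N', hne, hs⟩
  have hcard : (((blk l j).filter (fun N => Cand c ν k N)).card : ℝ) ≤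
      (((blk l j).filter (fun N => N ∈ SP c ν k₀ k₁)).card : ℝ) + ((B1 c ν k₀ k₁ k j).card +
        (((blk l j).filter (fun n => Z2 c ν k₁ k n)).card : ℝ)) := by
    have a := Finset.card_le_card hsub
    have b := Finset.card_union_le ((blk l j).filter (fun N => N ∈ SP c ν k₀ k₁))
      (B1 c ν k₀ k₁ k j ∪ (blk l j).filter (fun n => Z2 c ν k₁ k n))
    have d := Finset.card_union_le (B1 c ν k₀ k₁ k j) ((blk l j).filter (fun n => Z2 c ν k₁ k n))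
    have : ((blk l j).filter (fun N => Cand c ν k N)).card ≤
      ((blk l j).filter (fun N => N ∈ SP c ν k₀ k₁)).card + ((B1 c ν k₀ k₁ k j).card +
        ((blk l j).filter (fun n => Z2 c ν k₁ k n)).card) := by omega
    exact_mod_cast this
  have hB1 := B1_card hc hc' hν hν' h01 hk hj h1
  rw [← hl] at hB1
  -- combine
  have w1 : (2:ℝ) ^ (-(c * ν / 4 * (k:ℝ))) ≤ (2:ℝ) ^ (-(c * ν / 64 * (k:ℝ))) := by
    apply Real.rpow_le_rpow_of_exponent_le (by norm_num)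
    have : 0 ≤ c * ν * (k:ℝ) := by positivity
    nlinarith
  have w2 : (2:ℝ) ^ (-(ν / 32 * (k:ℝ))) ≤ (2:ℝ) ^ (-(c * ν / 64 * (k:ℝ))) := by
    apply Real.rpow_le_rpow_of_exponent_le (by norm_num)
    have h8 : c * ν / 64 * (k:ℝ) ≤ ν / 32 * (k:ℝ) := by
      apply mul_le_mul_of_nonneg_right _ hkpos.le
      nlinarith
    linarith
  set E : ℝ := (2:ℝ) ^ (-(c * ν / 64 * (k:ℝ))) with hE
  have hE0 : 0 ≤ E := by positivity
  have hL0 : (0:ℝ) < (2:ℝ) ^ l := by positivity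
  have hB1' : ((B1 c ν k₀ k₁ k j).card : ℝ) ≤ (2:ℝ) ^ l * (12 * ((k:ℝ) + 1) * E) := by
    refine le_trans hB1 ?_
    apply mul_le_mul_of_nonneg_left _ hL0.le
    apply mul_le_mul_of_nonneg_left w1 (by positivity)
  have hZ' : (((blk l j).filter (fun n => Z2 c ν k₁ k n)).card : ℝ) ≤ (2:ℝ) ^ l * (((k:ℝ) + 1) * E) := by
    refine le_trans h2 ?_
    apply mul_le_mul_of_nonneg_left _ hL0.le
    have : (1:ℝ) * E ≤ ((k:ℝ) + 1) * E := by
      apply mul_le_mul_of_nonneg_right _ hE0; linarith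
    linarith
  have hsum : (k:ℝ) * ((B1 c ν k₀ k₁ k j).card +
        (((blk l j).filter (fun n => Z2 c ν k₁ k n)).card : ℝ)) ≤ (2:ℝ) ^ l * (3 / 4 * c₁') := by
    calc (k:ℝ) * ((B1 c ν k₀ k₁ k j).card +
        (((blk l j).filter (fun n => Z2 c ν k₁ k n)).card : ℝ))
        ≤ (k:ℝ) * ((2:ℝ) ^ l * (12 * ((k:ℝ) + 1) * E) + (2:ℝ) ^ l * (((k:ℝ) + 1) * E)) := by
          apply mul_le_mul_of_nonneg_left _ hkpos.le
          exact add_le_add hB1' hZ'
      _ = (2:ℝ) ^ l * (13 * ((k:ℝ) * (k + 1) * E)) := by ring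
      _ ≤ (2:ℝ) ^ l * (13 * (c₁' / 32)) := by
          apply mul_le_mul_of_nonneg_left _ hL0.le
          apply mul_le_mul_of_nonneg_left hdec (by norm_num)
      _ ≤ (2:ℝ) ^ l * (3 / 4 * c₁') := by
          apply mul_le_mul_of_nonneg_left _ hL0.le
          linarith
  have hfin := le_trans hSN hcard
  push_cast at hfin
  rw [div_le_iff₀ hkpos] at hfin ⊢
  nlinarith


open Classical in
theorem sy3 : S_SY3 := by
  intro hBB hSN hCL hSY1 hSY2 hR
  obtain ⟨c, hc, hc', hSN⟩ := hSN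
  obtain ⟨ν₀, hν₀, hSN⟩ := hSN c hc le_rfl
  set ν : ℝ := min ν₀ (c/2) with hνdef
  have hν : 0 < ν := lt_min hν₀ (by positivity)
  have hν' : ν ≤ c/2 := min_le_right _ _
  have hν1 : ν ≤ 1 := by linarith
  obtain ⟨c₁', hc1, K1, hSN⟩ := hSN ν hν (min_le_left _ _)
  obtain ⟨K2, hSY1⟩ := hSY1 hR hBB c ν hc hc' hν hν'
  obtain ⟨K3, hSY2⟩ := hSY2 hR hBB hCL c ν hc hc' hν hν'
  obtain ⟨K4, hnb⟩ := noBad hBB hR
  obtain ⟨K5, hdec⟩ := ev_decay (c * ν / 64) (min (c₁' / 32) (1/16)) (by positivity)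
    (lt_min (by positivity) (by norm_num))
  obtain ⟨K6, hK6⟩ := exists_nat_ge (2000 / (19 * c))
  refine ⟨c, ν, c₁' / 4, hc, hc', hν, hν', by positivity, fun K => ?_⟩
  set k₀ : ℕ := K + K1 + K2 + K3 + K4 + K5 + K6 + 10 with hk₀
  set k₁ : ℕ := ⌈(k₀:ℝ) / ν⌉₊ with hk₁
  have h01 : (k₀ : ℝ) ≤ ν * k₁ := by
    have := Nat.le_ceil ((k₀:ℝ) / ν)
    rw [← hk₁, div_le_iff₀ hν] at this
    linarith
  have hk10 : 20 * k₀ ≤ k₁ := by
    have h3 : (k₀:ℝ) ≤ (1/20) * k₁ := by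
      refine le_trans h01 ?_
      apply mul_le_mul_of_nonneg_right _ (Nat.cast_nonneg _)
      linarith
    have : (20:ℝ) * k₀ ≤ k₁ := by linarith
    exact_mod_cast this
  have hk01 : k₀ < k₁ := by omega
  have hk1pos : 1 ≤ k₁ := by omega
  have hS1 := fun i => hSY1 k₁ i (by omega)
  have hS2 : ∀ k j : ℕ, j ∈ idx k (ll ν k₁ k) →
      (((blk (ll ν k₁ k) j).filter (fun n => Z2 c ν k₁ k n)).card : ℝ) ≤
      2 ^ ll ν k₁ k * (2 : ℝ) ^ (-(ν / 32 * (k : ℝ))) := fun k j hj => hSY2 k₁ k j (by omega) hj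
  have hll_small : ∀ k, k < k₁ → ll ν k₁ k = 2 * k / 3 := by
    intro k hk; unfold ll; rw [if_pos hk]
  have hnoBad : ∀ k j : ℕ, k₀ ≤ k → k < k₁ → j ∈ idx k (ll ν k₁ k) → ¬ Bad k (ll ν k₁ k) j := by
    intro k j h1 h2 hj
    rw [hll_small k h2] at hj ⊢
    exact (hnb k (by omega)).1 j hj
  -- members of QQ are large
  have hQbig : ∀ p, p ∈ QQ c ν k₁ → 2 ^ (k₀ + 1) ≤ p := by
    rintro p ⟨N, h0, h1, h2, h3, h4, h5, h6, h7⟩
    have a1 : (2:ℝ) ^ (((k₀ + 1 : ℕ)) : ℝ) ≤ (2:ℝ) ^ ((1/2 + c/2) * (Nat.log 2 N : ℝ)) := by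
      apply Real.rpow_le_rpow_of_exponent_le (by norm_num)
      have b1 : (k₁:ℝ) ≤ (Nat.log 2 N : ℝ) := by exact_mod_cast h1
      have b2 : ((20 * k₀ : ℕ) : ℝ) ≤ (k₁:ℝ) := by exact_mod_cast hk10
      have b3 : ((10 : ℕ) : ℝ) ≤ (k₀:ℝ) := by exact_mod_cast (by omega : 10 ≤ k₀)
      push_cast at b2 b3 ⊢
      nlinarith
    rw [Real.rpow_natCast] at a1
    have : ((2 ^ (k₀ + 1) : ℕ) : ℝ) < p := by push_cast; exact lt_of_le_of_lt a1 h5
    exact_mod_cast this.le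
  refine ⟨k₀, k₁, by omega, hk01, OD c ν k₀ k₁, SP c ν k₀ k₁, qq c ν k₀ k₁, ?_⟩
  refine
    { k01 := h01
      ord := fun p hp => ⟨hp.1, hp.2.1⟩
      ord_good := ?_
      sp_prime := ?_
      sp_scale := fun N hN => (qq_spec hN).1.2.1
      sp_low := fun N hN => (qq_spec hN).1.2.2.2.2.2.1
      sp_up := fun N hN => (qq_spec hN).1.2.2.2.2.2.2.1
      sp_rough := fun N hN => (qq_spec hN).1.2.2.2.2.2.2.2
      sp_ord := fun N hN => (qq_spec hN).2.1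
      sp_bad := fun N hN => (qq_spec hN).1.2.2.1
      inj := ?_
      disj := ?_
      base := ?_
      good := ?_
      bad := ?_
      cl := ?_
      sparse := ?_ }
  · -- ord_good
    intro p hp hlog
    rcases lt_or_ge (Nat.log 2 p) k₁ with h | h
    · apply hnoBad _ _ hlog.le h
      exact (mem_blk_of_log (ll_le hν k₁ _) hp.1.ne_zero rfl).1
    · intro hb
      exact hp.2.2.2 ⟨h, hb⟩
  · intro N hN
    have h := (qq_spec hN).1
    exact ⟨h.1, h.2.2.2.1, h.2.2.2.2.1⟩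
  · intro N hN N' hN' heq
    by_contra hne
    have h' := qq_spec hN'
    exact h'.2.2 N hne (heq ▸ (qq_spec hN).1)
  · intro N hN hO
    exact hO.2.2.1 ⟨N, (qq_spec hN).1⟩
  · -- base
    have hj : 1 ∈ idx k₀ k₀ := by unfold idx; simp
    have hnbad := (hnb k₀ (by omega)).2 1 hj
    unfold Bad at hnbad
    push Not at hnbad
    have hb : blk k₀ 1 = Ico (2 ^ k₀) (2 ^ (k₀ + 1)) := by
      unfold blk; congr 1 <;> ring
    rw [hb] at hnbad
    have hs : (Ico (2 ^ k₀) (2 ^ (k₀ + 1))).filter Nat.Prime ⊆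
        (Ico (2 ^ k₀) (2 ^ (k₀ + 1))).filter (fun p => p ∈ OD c ν k₀ k₁) := by
      intro p hp
      rw [Finset.mem_filter, Finset.mem_Ico] at hp ⊢
      obtain ⟨⟨p1, p2⟩, p3⟩ := hp
      refine ⟨⟨p1, p2⟩, p3, p1, ?_, ?_⟩
      · intro hq
        have := hQbig p hq
        omega
      · rintro ⟨hb1, _⟩
        rw [Nat.log_eq_of_pow_le_of_lt_pow p1 p2] at hb1
        omega
    have := Finset.card_le_card hs
    calc 2 ^ k₀ ≤ 8 * k₀ * ((Ico (2 ^ k₀) (2 ^ (k₀ + 1))).filter Nat.Prime).card := hnbad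
      _ ≤ 16 * k₀ * ((Ico (2 ^ k₀) (2 ^ (k₀ + 1))).filter (fun p => p ∈ OD c ν k₀ k₁)).card := by
          apply Nat.mul_le_mul _ this
          omega
  · -- good
    intro k j hk hj hnbad
    set l := ll ν k₁ k with hl
    have hlk : l ≤ k := ll_le hν k₁ k
    have hkpos : (0:ℝ) < k := by exact_mod_cast (by omega : 0 < k)
    have hs : (blk l j).filter Nat.Prime ⊆ (blk l j).filter (fun p => p ∈ OD c ν k₀ k₁) ∪
        (blk l j).filter (fun n => Z2 c ν k₁ k n) := by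
      intro p hp
      rw [Finset.mem_filter] at hp
      obtain ⟨hpb, hpp⟩ := hp
      obtain ⟨f1, f2, f3, f4⟩ := blk_facts hlk hj hpb
      rw [Finset.mem_union, Finset.mem_filter, Finset.mem_filter]
      by_cases hq : p ∈ QQ c ν k₁
      · right
        refine ⟨hpb, ?_⟩
        obtain ⟨N, hN⟩ := hq
        refine ⟨N, p, hN, dvd_rfl, ?_, ?_⟩
        · rw [← hl]
          exact le_trans (Nat.pow_le_pow_right (by norm_num) hlk) f1
        · rintro ⟨hd, _⟩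
          have h1 := Nat.le_of_dvd hpp.pos hd
          have h2 := src_lt hc' hk1pos hN
          omega
      · left
        refine ⟨hpb, hpp, ?_, hq, ?_⟩
        · exact le_trans (Nat.pow_le_pow_right (by norm_num) hk.le) f1
        · rintro ⟨_, hb2⟩
          rw [f3, ← hl, f4] at hb2
          exact hnbad hb2
    unfold Bad at hnbad
    push Not at hnbad
    have hc2 := le_trans (Finset.card_le_card hs) (Finset.card_union_le _ _)
    set P := ((blk l j).filter Nat.Prime).card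
    set O := ((blk l j).filter (fun p => p ∈ OD c ν k₀ k₁)).card
    set Z := ((blk l j).filter (fun n => Z2 c ν k₁ k n)).card with hZ
    have hZ2 : (Z:ℝ) ≤ 2 ^ l * (2 : ℝ) ^ (-(ν / 32 * (k : ℝ))) := hS2 k j hj
    have hd := hdec k (by omega)
    have hd2 := le_trans hd (min_le_right _ _)
    have w2 : (2:ℝ) ^ (-(ν / 32 * (k:ℝ))) ≤ (2:ℝ) ^ (-(c * ν / 64 * (k:ℝ))) := by
      apply Real.rpow_le_rpow_of_exponent_le (by norm_num)
      have h8 : c * ν / 64 * (k:ℝ) ≤ ν / 32 * (k:ℝ) := by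
        apply mul_le_mul_of_nonneg_right _ hkpos.le
        nlinarith
      linarith
    set E : ℝ := (2:ℝ) ^ (-(c * ν / 64 * (k:ℝ))) with hE
    have hE0 : 0 ≤ E := by positivity
    have hkE : (k:ℝ) * E ≤ 1/16 := by
      have : (k:ℝ) * 1 * E ≤ (k:ℝ) * (k+1) * E := by
        apply mul_le_mul_of_nonneg_right _ hE0
        apply mul_le_mul_of_nonneg_left _ hkpos.le
        linarith
      linarith
    have hL0 : (0:ℝ) < (2:ℝ) ^ l := by positivity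
    have h16 : 16 * (k:ℝ) * Z ≤ (2:ℝ) ^ l := by
      have : (Z:ℝ) ≤ (2:ℝ) ^ l * E := le_trans hZ2 (mul_le_mul_of_nonneg_left w2 hL0.le)
      calc 16 * (k:ℝ) * Z ≤ 16 * (k:ℝ) * ((2:ℝ) ^ l * E) :=
            mul_le_mul_of_nonneg_left this (by positivity)
        _ = (2:ℝ) ^ l * (16 * ((k:ℝ) * E)) := by ring
        _ ≤ (2:ℝ) ^ l * 1 := by
            apply mul_le_mul_of_nonneg_left _ hL0.le
            linarith
        _ = _ := mul_one _
    have h16' : 16 * k * Z ≤ 2 ^ l := by exact_mod_cast h16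
    have e1 : 16 * k * P ≤ 16 * k * O + 16 * k * Z := by
      rw [← Nat.mul_add]; exact Nat.mul_le_mul_left _ hc2
    have e2 : 2 * (8 * k * P) = 16 * k * P := by ring
    omega
  · -- bad
    intro k j hk hj hbad
    have hkk : k₁ ≤ k := by
      by_contra hcon
      push Not at hcon
      exact hnoBad k j hk.le hcon hj hbad
    refine ⟨hkk, ?_⟩
    set l := ll ν k₁ k with hl
    have hlk : l ≤ k := ll_le hν k₁ k
    have hj' := hj
    unfold idx at hj'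
    rw [Finset.mem_Ico] at hj'
    obtain ⟨j1, j2⟩ := hj'
    have e1 : 2 ^ k = 2 ^ (k - l) * 2 ^ l := by rw [← pow_add]; congr 1; omega
    have e2 : 2 ^ (k+1) = 2 ^ (k - l + 1) * 2 ^ l := by rw [← pow_add]; congr 1; omega
    have hkpos : (0:ℝ) < k := by exact_mod_cast (by omega : 0 < k)
    have hSN' := hSN k (j * 2 ^ l) (2 ^ l) (by omega)
      (by rw [e1]; exact Nat.mul_le_mul_right _ j1)
      (by rw [e2]
          calc j * 2 ^ l + 2 ^ l = (j+1) * 2 ^ l := by ring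
            _ ≤ _ := Nat.mul_le_mul_right _ j2)
      (by
        have hlo := ll_low (ν := ν) hkk
        rw [← hl] at hlo
        push_cast
        rw [← Real.rpow_natCast 2 l]
        apply Real.rpow_le_rpow_of_exponent_le (by norm_num)
        have hkK : (K6:ℝ) ≤ k := by exact_mod_cast (by omega : K6 ≤ k)
        have h1 : 2000 / (19 * c) ≤ (k:ℝ) := le_trans hK6 hkK
        rw [div_le_iff₀ (by positivity)] at h1
        nlinarith)
      (by
        have hup := ll_up hν1 hkk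
        rw [← hl] at hup
        push_cast
        rw [← Real.rpow_natCast 2 l]
        apply Real.rpow_le_rpow_of_exponent_le (by norm_num)
        nlinarith)
    exact bad_card hc hc' hν hν' hc1 h01 hkk hk1pos hj hS1 (hS2 k j hj) hbad hSN'
      (le_trans (hdec k (by omega)) (min_le_left _ _))
  · -- cl
    intro k j hk hj
    have h1 := hS2 k j hj
    have hs : (blk (ll ν k₁ k) j).filter (fun n => (∃ N ∈ SP c ν k₀ k₁,
        qq c ν k₀ k₁ N ∣ n ∧ 2 ^ ll ν k₁ k ≤ qq c ν k₀ k₁ N) ∧ ¬ Res ν (SP c ν k₀ k₁) k n) ⊆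
        (blk (ll ν k₁ k) j).filter (fun n => Z2 c ν k₁ k n) := by
      intro n hn
      rw [Finset.mem_filter] at hn ⊢
      obtain ⟨hnb, ⟨N, hN, hd, hle⟩, hres⟩ := hn
      refine ⟨hnb, N, qq c ν k₀ k₁ N, (qq_spec hN).1, hd, hle, ?_⟩
      intro hcon
      exact hres ⟨N, hN, hcon.1, hcon.2⟩
    have h2 := Finset.card_le_card hs
    have h3 : (((blk (ll ν k₁ k) j).filter (fun n => (∃ N ∈ SP c ν k₀ k₁,
        qq c ν k₀ k₁ N ∣ n ∧ 2 ^ ll ν k₁ k ≤ qq c ν k₀ k₁ N) ∧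
        ¬ Res ν (SP c ν k₀ k₁) k n)).card : ℝ) ≤
        (((blk (ll ν k₁ k) j).filter (fun n => Z2 c ν k₁ k n)).card : ℝ) := by exact_mod_cast h2
    refine le_trans h3 (le_trans h1 ?_)
    apply mul_le_mul_of_nonneg_left _ (by positivity)
    apply Real.rpow_le_rpow_of_exponent_le (by norm_num)
    have : (0:ℝ) ≤ ν * k := by positivity
    nlinarith
  · -- sparse
    intro i
    have hs : (Ico (2 ^ i) (2 ^ (i + 1))).filter (fun p => p ∈ qq c ν k₀ k₁ '' SP c ν k₀ k₁) ⊆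
        (Ico (2 ^ i) (2 ^ (i + 1))).filter (fun p => ∃ N, Src c ν k₁ N p) := by
      intro p hp
      rw [Finset.mem_filter] at hp ⊢
      obtain ⟨hp1, N, hN, rfl⟩ := hp
      exact ⟨hp1, N, (qq_spec hN).1⟩
    have h2 := Finset.card_le_card hs
    refine le_trans ?_ (hS1 i).1
    exact_mod_cast h2

end Pool.Agent.W933.MO
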